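import Pool.Agent.H724.EZ.Stm3

/-! # Project EZ (helper724), task COR2 (by helper539) -/

set_option autoImplicit false

namespace Pool.Agent.H539.EZ2

open Pool.Agent.TH719.ED Pool.Agent.H724.EZ

theorem cor2 : S_COR2 := by
  rintro G _ hG H K _ _ _ _ _ _ ⟨f, hf⟩
  obtain ⟨fH, hfH⟩ : ∃ fH : H →* G, ∀ a, fH a = f (a, 1) := ⟨f.comp (MonoidHom.inl H K), fun _ => rfl⟩
  obtain ⟨fK, hfK⟩ : ∃ fK : K →* G, ∀ b, fK b = f (1, b) := ⟨f.comp (MonoidHom.inr H K), fun _ => rfl⟩
  have hHi : Function.Injective fH := by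
    intro a b hab
    rw [hfH, hfH] at hab
    exact (Prod.mk.inj (hf hab)).1
  have hKi : Function.Injective fK := by
    intro a b hab
    rw [hfK, hfK] at hab
    exact (Prod.mk.inj (hf hab)).2
  have h1 : fH.range.FG := (Group.fg_iff_subgroup_fg _).1 (Group.fg_range fH)
  have h2 : fK.range.FG := (Group.fg_iff_subgroup_fg _).1 (Group.fg_range fK)
  have h3 : (fK.range : Set G).Infinite := by
    rw [MonoidHom.coe_range]
    exact Set.infinite_range_of_injective hKi
  have h4 : ∀ x ∈ fH.range, ∀ z ∈ fK.range, x * z = z * x := by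
    rintro _ ⟨a, rfl⟩ _ ⟨b, rfl⟩
    rw [hfH, hfK, ← map_mul, ← map_mul]
    simp
  apply hG fH.range fK.range h1 h2 h3 h4
  have h5 : fK.range.subgroupOf fH.range = ⊥ := by
    rw [eq_bot_iff]
    rintro ⟨x, a, rfl⟩ hx
    rw [Subgroup.mem_subgroupOf] at hx
    obtain ⟨b, hb⟩ := hx
    rw [Subgroup.mem_bot]
    apply Subtype.ext
    show fH a = 1
    have hb' : fK b = fH a := hb
    rw [hfH, hfK] at hb'
    have h6 := hf hb'
    have h7 : a = 1 := (Prod.mk.inj h6).1.symm
    rw [h7, map_one]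
  have h8 : Infinite fH.range := by
    have : (Set.range fH).Infinite := Set.infinite_range_of_injective hHi
    exact this.to_subtype
  rw [Subgroup.relIndex, h5, Subgroup.index_bot]
  exact Nat.card_eq_zero_of_infinite

end Pool.Agent.H539.EZ2
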