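import Pool.Agent.H724.EZ.Stm2

/-! # Project EZ (helper724), task WORD2 (by helper539): the word for a closed path -/

set_option autoImplicit false

namespace Pool.Agent.H539.EZ

open Pool.Agent.TH719.ED Pool.Agent.H724.EZ

/-- the products of the prefixes -/
def pref {G : Type} [Group G] (w : List G) : Set G := Set.range (fun k => (w.take k).prod)

theorem pref_finite {G : Type} [Group G] (w : List G) : (pref w).Finite := by
  have : pref w ⊆ (fun k => (w.take k).prod) '' (Set.Iic w.length) := by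
    rintro _ ⟨k, rfl⟩
    rcases le_total k w.length with h | h
    · exact ⟨k, h, rfl⟩
    · refine ⟨w.length, Set.mem_Iic.2 le_rfl, ?_⟩
      simp only
      rw [List.take_of_length_le h, List.take_length]
  exact ((Set.finite_Iic _).image _).subset this

theorem one_mem_pref {G : Type} [Group G] (w : List G) : (1 : G) ∈ pref w := ⟨0, by simp⟩

theorem mem_pref {G : Type} [Group G] (w : List G) (k : ℕ) : (w.take k).prod ∈ pref w := ⟨k, rfl⟩

theorem rep_flat_prod {G : Type} [Group G] (w : List G) (K : ℕ) :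
    (List.replicate K w).flatten.prod = w.prod ^ K := by
  induction K with
  | zero => simp
  | succ K ih => rw [List.replicate_succ, List.flatten_cons, List.prod_append, ih, pow_succ']

theorem word2 : S_WORD2 := by
  rintro ⟨hREP, hPRE, hINEQ⟩ ⟨hFAST, hPOS, hBP⟩
  intro G H Q _ _ _ X hX j hj y hy hyo π hπs hπ E
  classical
  choose rep rep_mem rep_prod using hX
  choose lift hlift using hπs
  obtain ⟨yw, hyw⟩ : ∃ yw, yw = rep (j y) := ⟨_, rfl⟩
  obtain ⟨iw, hiw⟩ : ∃ iw, iw = rep (j y⁻¹) := ⟨_, rfl⟩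
  have hywp : yw.prod = j y := by rw [hyw, rep_prod]
  have hiwp : iw.prod = j y⁻¹ := by rw [hiw, rep_prod]
  have hywX : ∀ x ∈ yw, x ∈ X := by rw [hyw]; exact rep_mem _
  have hiwX : ∀ x ∈ iw, x ∈ X := by rw [hiw]; exact rep_mem _
  have hyw0 : yw ≠ [] := by
    intro h
    rw [h, List.prod_nil] at hywp
    apply hyo
    have h1 : y = 1 := hj (by rw [← hywp, map_one])
    rw [h1]
    exact IsOfFinOrder.one
  have hπy : π y = 1 := (hπ y).2 (Subgroup.mem_zpowers y)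
  obtain ⟨Q0, hQ0⟩ : ∃ Q0 : Set G, Q0 = pref yw ∪ pref iw ∪ ⋃ e ∈ E, pref (rep (j (lift e))) := ⟨_, rfl⟩
  have hQy : ∀ k, (yw.take k).prod ∈ Q0 := fun k => by
    rw [hQ0]; exact Or.inl (Or.inl (mem_pref _ _))
  have hQi : ∀ k, (iw.take k).prod ∈ Q0 := fun k => by
    rw [hQ0]; exact Or.inl (Or.inr (mem_pref _ _))
  have hQe : ∀ e ∈ E, ∀ k, ((rep (j (lift e))).take k).prod ∈ Q0 := fun e he k => by
    rw [hQ0]
    refine Or.inr ?_
    simp only [Set.mem_iUnion]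
    exact ⟨e, he, mem_pref _ _⟩
  have hQf : Q0.Finite := by
    rw [hQ0]
    exact ((pref_finite _).union (pref_finite _)).union
      (E.finite_toSet.biUnion fun e _ => pref_finite _)
  refine ⟨Q0, hQf, ?_⟩
  intro m S hS0 hSm hSE
  obtain ⟨el, hel⟩ : ∃ el : ℕ → H, el = fun i => lift ((S i)⁻¹ * S (i + 1)) := ⟨_, rfl⟩
  obtain ⟨T, hT⟩ : ∃ T : ℕ → H, T = fun p => ((List.range p).map el).prod := ⟨_, rfl⟩
  have hTd : ∀ p, T p = ((List.range p).map el).prod := fun p => by rw [hT]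
  have hπT : ∀ p, π (T p) = S p := by
    intro p
    induction p with
    | zero => rw [hTd, hS0]; simp
    | succ p ih =>
      rw [hTd, List.range_succ, List.map_append, List.prod_append, ← hTd, map_mul, ih]
      simp only [List.map_cons, List.map_nil, List.prod_cons, List.prod_nil, mul_one, hel, hlift]
      group
  obtain ⟨ew, hew⟩ : ∃ ew : ℕ → List G, ew = fun i => rep (j (el i)) := ⟨_, rfl⟩
  have hewp : ∀ i < m, (ew i).prod = j (el i) := fun i _ => by rw [hew]; exact rep_prod _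
  have hewX : ∀ i, ∀ x ∈ ew i, x ∈ X := fun i => by rw [hew]; exact rep_mem _
  have hQw : ∀ i < m, ∀ k, ((ew i).take k).prod ∈ Q0 := by
    intro i hi k
    have h1 := hQe _ (hSE i hi) k
    rw [hew, hel]
    exact h1
  obtain ⟨Φ, hΦ⟩ : ∃ Φ : Set G, Φ =
      ((fun x : (ℕ × ℕ × ℕ × ℕ) × (G × G) => (j ((T x.1.1)⁻¹ * T x.1.2.1))⁻¹ * x.2.1 * x.2.2⁻¹ *
        j ((T x.1.2.2.1)⁻¹ * T x.1.2.2.2)) ''
        ((Set.Iic m ×ˢ (Set.Iic m ×ˢ (Set.Iic m ×ˢ Set.Iic m))) ×ˢ (Q0 ×ˢ Q0))) ∪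
      ((fun x : G × G => x.1 * x.2⁻¹) '' (Q0 ×ˢ Q0)) := ⟨_, rfl⟩
  have hΦf : Φ.Finite := by
    rw [hΦ]
    have hI : (Set.Iic m).Finite := Set.finite_Iic m
    exact (((hI.prod (hI.prod (hI.prod hI))).prod (hQf.prod hQf)).image _).union
      ((hQf.prod hQf).image _)
  have hΦ1 : ∀ p' q' p q, p' ≤ m → q' ≤ m → p ≤ m → q ≤ m → ∀ a ∈ Q0, ∀ b ∈ Q0,
      (j ((T p')⁻¹ * T q'))⁻¹ * a * b⁻¹ * j ((T p)⁻¹ * T q) ∈ Φ := by
    intro p' q' p q h1 h2 h3 h4 a ha b hb
    rw [hΦ]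
    exact Or.inl ⟨((p', q', p, q), (a, b)), ⟨⟨h1, h2, h3, h4⟩, ha, hb⟩, rfl⟩
  have hΦ2 : ∀ a ∈ Q0, ∀ b ∈ Q0, a * b⁻¹ ∈ Φ := by
    intro a ha b hb
    rw [hΦ]
    exact Or.inr ⟨(a, b), ⟨ha, hb⟩, rfl⟩
  have hjyo : ¬ IsOfFinOrder (j y) := by
    intro h
    apply hyo
    rw [isOfFinOrder_iff_pow_eq_one] at h ⊢
    obtain ⟨k, hk, hk2⟩ := h
    exact ⟨k, hk, hj (by rw [map_pow, hk2, map_one])⟩
  obtain ⟨n, hn1, hnm, hnΦ⟩ := hFAST (j y) hjyo Φ hΦf
  -- the block part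
  obtain ⟨C, hC⟩ : ∃ C, C = Csl yw n ew m := ⟨_, rfl⟩
  have hCl : C.length = m := by rw [hC]; simp [Csl]
  have hCne : ∀ c ∈ C, c ≠ [] := by
    intro c hc
    rw [hC] at hc
    simp only [Csl, List.mem_map, List.mem_range] at hc
    obtain ⟨i, -, rfl⟩ := hc
    unfold blkW
    intro h
    rw [List.append_eq_nil_iff] at h
    obtain ⟨k, hk⟩ : ∃ k, n i = k + 1 := ⟨n i - 1, by have := hn1 i; omega⟩
    rw [hk, List.replicate_succ, List.flatten_cons, List.append_eq_nil_iff] at h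
    exact hyw0 h.1.1
  have hCX : ∀ x ∈ C.flatten, x ∈ X := by
    intro x hx
    rw [hC, List.mem_flatten] at hx
    obtain ⟨c, hc, hxc⟩ := hx
    simp only [Csl, List.mem_map, List.mem_range] at hc
    obtain ⟨i, -, rfl⟩ := hc
    unfold blkW at hxc
    rw [List.mem_append] at hxc
    rcases hxc with h | h
    · rw [List.mem_flatten] at h
      obtain ⟨c, hc, hxc⟩ := h
      rw [List.mem_replicate] at hc
      rw [hc.2] at hxc
      exact hywX x hxc
    · exact hewX i x h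
  obtain ⟨z1, hz1⟩ : ∃ z1, z1 = C.flatten.length := ⟨_, rfl⟩
  have hbkm : ∀ z, z1 ≤ z → blk C z = m := by
    intro z hz
    apply le_antisymm
    · rw [← hCl]; exact blk_le_length _ _
    · have h1 := blk_mono C hz
      rw [hz1, blk_total, hCl] at h1
      exact h1
  have hbkle : ∀ z, blk C z ≤ m := fun z => by rw [← hCl]; exact blk_le_length _ _
  -- the final part
  obtain ⟨t, ht⟩ : ∃ t : ℤ, y ^ t = T m := by
    have h1 : T m ∈ Subgroup.zpowers y := (hπ _).1 (by rw [hπT, hSm])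
    exact Subgroup.mem_zpowers_iff.1 h1
  obtain ⟨s0, hs0⟩ : ∃ s0 : ℤ, s0 = t + (∑ k ∈ Finset.range m, n k : ℕ) := ⟨_, rfl⟩
  have hCp : C.flatten.prod = j (y ^ s0) := by
    have h1 := hBP j y hy yw hywp n ew el m 0 hewp
    simp only [List.replicate_zero, List.flatten_nil, List.append_nil, add_zero] at h1
    rw [hC, h1, ← hTd, ← ht, hs0, zpow_add, zpow_natCast]
  obtain ⟨fw, δ, K, hfwX, hfwp, hfwQ, hδ, hπδ⟩ : ∃ (fw : List G) (δ : H) (K : ℕ), (∀ x ∈ fw, x ∈ X) ∧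
      fw.prod = j δ ∧ (∀ k, (fw.take k).prod ∈ Q0) ∧ y ^ s0 * δ ^ K = 1 ∧ π δ = 1 := by
    rcases le_total 0 s0 with h | h
    · refine ⟨iw, y⁻¹, s0.toNat, hiwX, hiwp, hQi, ?_, by rw [map_inv, hπy, inv_one]⟩
      rw [inv_pow, ← zpow_natCast, Int.toNat_of_nonneg h, mul_inv_cancel]
    · refine ⟨yw, y, (-s0).toNat, hywX, hywp, hQy, ?_, hπy⟩
      rw [← zpow_natCast, Int.toNat_of_nonneg (by omega), ← zpow_add, add_neg_cancel, zpow_zero]
  obtain ⟨W, hW⟩ : ∃ W, W = C.flatten ++ (List.replicate K fw).flatten := ⟨_, rfl⟩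
  have hWl : z1 ≤ W.length := by rw [hW, List.length_append, hz1]; omega
  have htake1 : ∀ z ≤ z1, W.take z = C.flatten.take z := by
    intro z hz
    rw [hW, List.take_append_of_le_length (by rw [← hz1]; exact hz)]
  -- data before `z1`
  have hdat : ∀ z, z ≤ z1 → ∃ (N : ℕ) (κ : G), (W.take z).prod = j (T (blk C z) * y ^ N) * κ ∧
      ∑ k ∈ Finset.range (blk C z), n k ≤ N ∧ N ≤ ∑ k ∈ Finset.range (blk C z + 1), n k ∧
      κ ∈ Q0 ∧ (z = 0 → κ = 1) ∧ (blk C z = m → κ = 1) := by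
    intro z hz
    obtain ⟨N, κ, g1, g2, g3, g4, g5, g6⟩ := hPRE ⟨hPOS, hBP⟩ j y hy yw hywp hyw0 n hn1 ew el m hewp z
      (by rw [← hC, ← hz1]; exact hz)
    rw [← hC] at g1 g2 g3 g6
    refine ⟨N, κ, ?_, g2, g3, ?_, g5, fun h => (g6 h).1⟩
    · rw [htake1 z hz, g1, ← hTd]
    · rcases g4 with ⟨k, rfl⟩ | ⟨i, hi, k, rfl⟩
      · exact hQy k
      · exact hQw i hi k
  -- data after `z1`
  have hdat2 : ∀ z, z1 < z → z ≤ W.length → ∃ (hz : H) (κ : G), (W.take z).prod = j hz * κ ∧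
      κ ∈ Q0 ∧ π hz = 1 ∧ (z = W.length → κ = 1) := by
    intro z hz hzW
    obtain ⟨a, b, ha, hab, hend⟩ := hREP fw K (z - z1)
    refine ⟨y ^ s0 * δ ^ a, (fw.take b).prod, ?_, hfwQ b, ?_, ?_⟩
    · have h1 : W.take z = C.flatten ++ (List.replicate K fw).flatten.take (z - z1) := by
        rw [hW, List.take_append, List.take_of_length_le (by rw [← hz1]; exact hz.le), ← hz1]
      rw [h1, hab, List.prod_append, List.prod_append, hCp, rep_flat_prod, hfwp, map_mul, map_pow,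
        mul_assoc]
    · rw [map_mul, map_zpow, hπy, one_zpow, map_pow, hπδ, one_pow, mul_one]
    · intro hzz
      have h2 := hend (by
        rw [hzz, hW, List.length_append, ← hz1]
        omega)
      rw [h2.2, List.take_zero, List.prod_nil]
  choose! Nf κf hNκ using hdat
  choose! hf κg hhκ using hdat2
  refine ⟨W, blk C, fun z => if z ≤ z1 then T (blk C z) * y ^ (Nf z) else hf z,
    fun z => if z ≤ z1 then κf z else κg z, z1, ?_, ?_, blk_mono C, blk_zero C hCne,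
    hbkm _ hWl, hbkle, blk_succ_le C hCne, hbkm, ?_, ?_, ?_, ?_⟩
  · intro x hx
    rw [hW, List.mem_append] at hx
    rcases hx with h | h
    · exact hCX x h
    · rw [List.mem_flatten] at h
      obtain ⟨c, hc, hxc⟩ := h
      rw [List.mem_replicate] at hc
      rw [hc.2] at hxc
      exact hfwX x hxc
  · rw [hW, List.prod_append, hCp, rep_flat_prod, hfwp, ← map_pow, ← map_mul, hδ, map_one]
  · intro z hz
    by_cases h : z ≤ z1
    · obtain ⟨g1, g2, g3, g4, g5, g6⟩ := hNκ z h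
      simp only [h, if_true]
      refine ⟨g1, g4, ?_⟩
      rw [map_mul, map_pow, hπy, one_pow, mul_one, hπT]
    · obtain ⟨g1, g2, g3, g4⟩ := hhκ z (by omega) hz
      simp only [h, if_false]
      refine ⟨g1, g2, ?_⟩
      rw [g3, hbkm z (by omega), hSm]
  · simp only [Nat.zero_le, if_true]
    exact (hNκ 0 (Nat.zero_le _)).2.2.2.2.1 rfl
  · by_cases h : W.length ≤ z1
    · simp only [h, if_true]
      exact (hNκ _ h).2.2.2.2.2 (hbkm _ hWl)
    · simp only [h, if_false]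
      exact (hhκ _ (by omega) le_rfl).2.2.2 rfl
  · intro s e s' e' h1 h2 h3 h4 h5 h6 h7
    obtain ⟨a1, a2, a3, a4, -, -⟩ := hNκ s (by omega)
    obtain ⟨b1, b2, b3, b4, -, -⟩ := hNκ e (by omega)
    obtain ⟨c1, c2, c3, c4, -, -⟩ := hNκ s' (by omega)
    obtain ⟨d1, d2, d3, d4, -, -⟩ := hNκ e' (by omega)
    rw [a1, b1, c1, d1]
    exact hINEQ j y hy n hnm Φ hnΦ T (blk C s) (blk C e) (blk C s') (blk C e') (Nf s) (Nf e) (Nf s')
      (Nf e') (κf s) (κf e) (κf s') (κf e') h6 (blk_mono C h2) h7 a3 b2 b3 c3 d2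
      (hΦ1 _ _ _ _ (hbkle _) (hbkle _) (hbkle _) (hbkle _) _ c4 _ a4) (hΦ2 _ b4 _ d4)

end Pool.Agent.H539.EZ
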